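import Pool.Agent.Zk4.G.U
import Pool.Agent.Zk69.GF.Step

/-!
# PART A4: the numbers of zeros of `f_n` and `f_n'` in `(a, b]`, with an absolute constant
-/

set_option autoImplicit false

namespace Pool.Agent.Zk69.G

open Complex MeasureTheory Filter Topology Set
open Pool.Agent.Zk4.G
open Pool.Agent.Zk69.GF (Fam ph pv cnt residue ver_diff)

noncomputable section

variable {F : ℂ → ℂ}

theorem iter_diff (hF : FE F) (n : ℕ) : Differentiable ℂ (iteratedDeriv n F) :=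
  (hF.diff.contDiff (n := ⊤)).differentiable_iteratedDeriv n (by exact_mod_cast WithTop.coe_lt_top _)

theorem iter_hasDeriv (hF : FE F) (n : ℕ) (z : ℂ) : HasDerivAt (iteratedDeriv n F) (iteratedDeriv (n + 1) F z) z := by
  rw [iteratedDeriv_succ]
  exact (iter_diff hF n z).hasDerivAt

/-- the symmetry of the derivatives -/
theorem iter_symm (hF : FE F) (n : ℕ) : ∀ z : ℂ,
    iteratedDeriv n F (-(starRingEnd ℂ) z) = (-1) ^ n * (starRingEnd ℂ) (iteratedDeriv n F z) := by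
  induction n with
  | zero =>
    intro z
    simpa using hF.symm z
  | succ n ih =>
    intro z
    -- differentiate along the real direction
    have h1 : HasDerivAt (fun t : ℝ => iteratedDeriv n F (-(starRingEnd ℂ) (z + (t : ℂ))))
        (-iteratedDeriv (n + 1) F (-(starRingEnd ℂ) z)) 0 := by
      have e : (fun t : ℝ => iteratedDeriv n F (-(starRingEnd ℂ) (z + (t : ℂ)))) =
          fun t : ℝ => iteratedDeriv n F (-(starRingEnd ℂ) z + (-(t : ℂ))) := by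
        funext t
        congr 1
        rw [map_add, conj_ofReal]
        ring
      rw [e]
      have h2 : HasDerivAt (fun t : ℝ => -(starRingEnd ℂ) z + (-(t : ℂ))) (-1) 0 :=
        ((Complex.ofRealCLM.hasDerivAt (x := (0 : ℝ))).neg).const_add _
      have h3 := iter_hasDeriv hF n (-(starRingEnd ℂ) z)
      have h4 := h3.comp_of_eq (0 : ℝ) h2 (by simp)
      refine h4.congr_deriv ?_
      ring
    have h5 : HasDerivAt (fun t : ℝ => (-1 : ℂ) ^ n * (starRingEnd ℂ) (iteratedDeriv n F (z + (t : ℂ))))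
        ((-1 : ℂ) ^ n * (starRingEnd ℂ) (iteratedDeriv (n + 1) F z)) 0 := by
      have h2 : HasDerivAt (fun t : ℝ => z + (t : ℂ)) 1 0 :=
        (Complex.ofRealCLM.hasDerivAt (x := (0 : ℝ))).const_add _
      have h3 := iter_hasDeriv hF n z
      have h4 : HasDerivAt (fun t : ℝ => iteratedDeriv n F (z + (t : ℂ))) (iteratedDeriv (n + 1) F z * 1) 0 :=
        h3.comp_of_eq (0 : ℝ) h2 (by simp)
      rw [mul_one] at h4
      have h6 := (Complex.conjCLE.toContinuousLinearMap.hasFDerivAt.comp_hasDerivAt (0 : ℝ) h4)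
      exact h6.const_mul _
    have e : (fun t : ℝ => iteratedDeriv n F (-(starRingEnd ℂ) (z + (t : ℂ)))) =
        fun t : ℝ => (-1 : ℂ) ^ n * (starRingEnd ℂ) (iteratedDeriv n F (z + (t : ℂ))) := funext fun t => ih _
    rw [e] at h1
    have h7 := h1.unique h5
    rw [pow_succ]
    linear_combination -h7

theorem qq_symm (hF : FE F) (n : ℕ) (z : ℂ) :
    qq F n (-(starRingEnd ℂ) z) = -(starRingEnd ℂ) (qq F n z) := by
  unfold qq
  rw [iter_symm hF, iter_symm hF, map_div₀, pow_succ]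
  have h : ((-1 : ℂ) ^ n) ≠ 0 := pow_ne_zero _ (by norm_num)
  by_cases h0 : (starRingEnd ℂ) (iteratedDeriv n F z) = 0
  · rw [h0]; simp
  · field_simp

theorem strip (hF : FE F) (hA : S_A1 F) (n : ℕ) (z : ℂ) (hz : iteratedDeriv n F z = 0) : |z.re| ≤ 1 / 2 := by
  by_contra hcon
  push Not at hcon
  rcases lt_abs.1 hcon with h | h
  · exact (hA.1 n z h).1 hz
  · have h2 := (hA.1 n (-(starRingEnd ℂ) z) (by rw [neg_re, conj_re]; exact h)).1
    rw [iter_symm hF, hz, map_zero, mul_zero] at h2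
    exact h2 rfl

theorem fam (hF : FE F) (hA : S_A1 F) : Fam (fun n => iteratedDeriv n F) 1 where
  pos := one_pos
  deriv := iter_hasDeriv hF
  strip := fun n z hz => (strip hF hA n z hz).trans_lt (by norm_num)
  symm := qq_symm hF
  right := fun n y => (hA.1 n _ (by norm_num)).2

/-- a good height -/
theorem ne_of_good (hF : FE F) (hA : S_A1 F) {n : ℕ} {V : ℝ}
    (h : ∀ x : ℝ, |x| ≤ 1 → iteratedDeriv n F (⟨x, V⟩ : ℂ) ≠ 0) (x : ℝ) : iteratedDeriv n F (ph V x) ≠ 0 := by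
  rcases le_or_gt |x| 1 with h1 | h1
  · exact h x h1
  · intro h2
    have h3 := strip hF hA n _ h2
    have e : (ph V x).re = x := rfl
    rw [e] at h3
    linarith

theorem zs_finite (hF : FE F) (hA : S_A1 F) {C2 : ℝ} (h2 : S_A2 F C2) (n : ℕ) (a b : ℝ) : (zs F n a b).Finite := by
  rcases le_or_gt b a with hab | hab
  · have e : zs F n a b = ∅ := by
      rw [Set.eq_empty_iff_forall_notMem]
      rintro s ⟨-, h3, h4⟩
      linarith
    rw [e]
    exact Set.finite_empty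
  obtain ⟨V1, hV1, hV1', hv1⟩ := h2 (a - 1) n n
  obtain ⟨V2, hV2, hV2', hv2⟩ := h2 b n n
  have h12 : V1 < V2 := by linarith
  have hr := (residue (fam hF hA) n h12 (ne_of_good hF hA (hv1 n (Or.inl rfl)).1)
    (ne_of_good hF hA (hv2 n (Or.inl rfl)).1)).1
  refine hr.subset ?_
  rintro s ⟨h3, h4, h5⟩
  exact ⟨h3, by linarith, by linarith⟩

theorem NT_add (hF : FE F) (hA : S_A1 F) {C2 : ℝ} (h2 : S_A2 F C2) (n : ℕ) {a b c : ℝ} (hab : a ≤ b) (hbc : b ≤ c) :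
    NT F n a c = NT F n a b + NT F n b c := by
  unfold NT
  have e : zs F n a c = zs F n a b ∪ zs F n b c := by
    ext s
    constructor
    · rintro ⟨h3, h4, h5⟩
      rcases le_or_gt s.im b with h6 | h6
      · exact Or.inl ⟨h3, h4, h6⟩
      · exact Or.inr ⟨h3, h6, h5⟩
    · rintro (⟨h3, h4, h5⟩ | ⟨h3, h4, h5⟩)
      · exact ⟨h3, h4, h5.trans hbc⟩
      · exact ⟨h3, hab.trans_lt h4, h5⟩
  have hd : Disjoint (zs F n a b) (zs F n b c) := by
    rw [Set.disjoint_left]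
    rintro s ⟨-, -, h3⟩ ⟨-, h4, -⟩
    linarith
  rw [e, finsum_mem_union hd (zs_finite hF hA h2 n a b) (zs_finite hF hA h2 n b c)]

theorem window (hF : FE F) (hA : S_A1 F) {C2 C3 : ℝ} (h2 : S_A2 F C2) (h3 : S_A3 F C3) (n : ℕ) {T V : ℝ}
    (hV : V ≤ T + 2) : (NT F n T V : ℝ) ≤ C3 * ‖qq F n (⟨1, T⟩ : ℂ)‖ := by
  have hf := zs_finite hF hA h2 n T V
  have h := h3 T n hf.toFinset (by
    intro s hs
    rw [Set.Finite.mem_toFinset] at hs
    obtain ⟨h4, h5, h6⟩ := hs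
    refine ⟨?_, h4⟩
    rw [abs_le]
    constructor <;> linarith)
  refine le_trans (le_of_eq ?_) h
  unfold NT
  rw [finsum_mem_eq_finite_toFinset_sum _ hf]
  push_cast
  rfl

/-- the vertical integrals -/
theorem ver (hF : FE F) (hA : S_A1 F) (T1 T2 : ℝ) (n k : ℕ) :
    |(∫ y in T1..T2, qq F (n + k) (pv 1 y)).re - (∫ y in T1..T2, qq F n (pv 1 y)).re| ≤ k * Real.pi := by
  induction k with
  | zero => simp
  | succ k ih =>
    have h := ver_diff (fam hF hA) (n + k) T1 T2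
    have h' : (∫ y in T1..T2, qq F (n + k + 1) (pv 1 y)).re - (∫ y in T1..T2, qq F (n + k) (pv 1 y)).re =
        arg (qq F (n + k) (pv 1 T2)) - arg (qq F (n + k) (pv 1 T1)) := h
    have p1 := Complex.abs_arg_le_pi_div_two_iff.2 ((fam hF hA).right (n + k) T1).le
    have p2 := Complex.abs_arg_le_pi_div_two_iff.2 ((fam hF hA).right (n + k) T2).le
    have p1' : |arg (qq F (n + k) (pv 1 T1))| ≤ Real.pi / 2 := p1
    have p2' : |arg (qq F (n + k) (pv 1 T2))| ≤ Real.pi / 2 := p2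
    have h3 := abs_sub (arg (qq F (n + k) (pv 1 T2))) (arg (qq F (n + k) (pv 1 T1)))
    rw [← h'] at h3
    have h4 := abs_sub_le (∫ y in T1..T2, qq F (n + k + 1) (pv 1 y)).re
      (∫ y in T1..T2, qq F (n + k) (pv 1 y)).re (∫ y in T1..T2, qq F n (pv 1 y)).re
    rw [← add_assoc]
    push_cast
    linarith

theorem hor_le (hF : FE F) (hA : S_A1 F) {n : ℕ} {V B : ℝ}
    (h : ∀ x : ℝ, |x| ≤ 1 → iteratedDeriv n F (⟨x, V⟩ : ℂ) ≠ 0)
    (hB : ∫ x in (-1 : ℝ)..1, ‖qq F n (⟨x, V⟩ : ℂ)‖ ≤ B) :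
    |(∫ x in (0 : ℝ)..1, qq F n (ph V x)).im| ≤ B := by
  have hc : Continuous fun x : ℝ => qq F n (ph V x) :=
    Pool.Agent.Zk69.GF.cont_h (fam hF hA) n (ne_of_good hF hA h)
  have h1 : ‖∫ x in (0 : ℝ)..1, qq F n (ph V x)‖ ≤ ∫ x in (0 : ℝ)..1, ‖qq F n (ph V x)‖ :=
    intervalIntegral.norm_integral_le_integral_norm (by norm_num)
  have h2 : ∫ x in (0 : ℝ)..1, ‖qq F n (ph V x)‖ ≤ ∫ x in (-1 : ℝ)..1, ‖qq F n (ph V x)‖ := by
    rw [← intervalIntegral.integral_add_adjacent_intervals (hc.norm.intervalIntegrable (-1) 0)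
      (hc.norm.intervalIntegrable 0 1)]
    have : 0 ≤ ∫ x in (-1 : ℝ)..0, ‖qq F n (ph V x)‖ :=
      intervalIntegral.integral_nonneg (by norm_num) fun x _ => norm_nonneg _
    linarith
  exact ((abs_im_le_norm _).trans h1).trans (h2.trans hB)

/-- **PART A4** -/
theorem t_A4 {C2 C3 : ℝ} (hC2 : 0 ≤ C2) (hC3 : 0 ≤ C3) (hF : FE F) (hA : S_A1 F) (h2 : S_A2 F C2)
    (h3 : S_A3 F C3) : S_A4 F (16 * C2 + 16 * C3 + 1) := by
  intro a b n n' hab hnn
  obtain ⟨k, rfl⟩ := Nat.exists_eq_add_of_le hnn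
  set Qa := ‖qq F 0 (⟨1, a⟩ : ℂ)‖ with hQa
  set Qb := ‖qq F 0 (⟨1, b⟩ : ℂ)‖ with hQb
  have hQa0 : 0 ≤ Qa := norm_nonneg _
  have hQb0 : 0 ≤ Qb := norm_nonneg _
  set K : ℝ := ((n + k : ℕ) : ℝ) with hK
  have hK0 : 0 ≤ K := Nat.cast_nonneg _
  have hn : (n : ℝ) ≤ K := by rw [hK]; push_cast; linarith [Nat.cast_nonneg (α := ℝ) k]
  have hk : (k : ℝ) ≤ K := by rw [hK]; push_cast; linarith [Nat.cast_nonneg (α := ℝ) n]
  -- the bounds at `a` and `b`
  have qa : ∀ m : ℕ, (m : ℝ) ≤ K → ‖qq F m (⟨1, a⟩ : ℂ)‖ ≤ Qa + 4 * K := fun m hm =>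
    (hA.2 m a).trans (by linarith)
  have qb : ∀ m : ℕ, (m : ℝ) ≤ K → ‖qq F m (⟨1, b⟩ : ℂ)‖ ≤ Qb + 4 * K := fun m hm =>
    (hA.2 m b).trans (by linarith)
  obtain ⟨V1, hV1, hV1', hv1⟩ := h2 a n (n + k)
  obtain ⟨V2, hV2, hV2', hv2⟩ := h2 b n (n + k)
  set Ba : ℝ := C2 * (2 * Qa + 8 * K + 1) with hBa
  set Bb : ℝ := C2 * (2 * Qb + 8 * K + 1) with hBb
  have ba : C2 * (‖qq F n (⟨1, a⟩ : ℂ)‖ + ‖qq F (n + k) (⟨1, a⟩ : ℂ)‖ + 1) ≤ Ba :=
    mul_le_mul_of_nonneg_left (by linarith [qa n hn, qa (n + k) le_rfl]) hC2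
  have bb : C2 * (‖qq F n (⟨1, b⟩ : ℂ)‖ + ‖qq F (n + k) (⟨1, b⟩ : ℂ)‖ + 1) ≤ Bb :=
    mul_le_mul_of_nonneg_left (by linarith [qb n hn, qb (n + k) le_rfl]) hC2
  have wa : ∀ m : ℕ, (m : ℝ) ≤ K → ∀ V : ℝ, V ≤ a + 2 → (NT F m a V : ℝ) ≤ C3 * (Qa + 4 * K) :=
    fun m hm V hV => (window hF hA h2 h3 m hV).trans (mul_le_mul_of_nonneg_left (qa m hm) hC3)
  have wb : ∀ m : ℕ, (m : ℝ) ≤ K → ∀ V : ℝ, V ≤ b + 2 → (NT F m b V : ℝ) ≤ C3 * (Qb + 4 * K) :=
    fun m hm V hV => (window hF hA h2 h3 m hV).trans (mul_le_mul_of_nonneg_left (qb m hm) hC3)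
  have p1 : 0 ≤ C2 * Qa := mul_nonneg hC2 hQa0
  have p2 : 0 ≤ C2 * Qb := mul_nonneg hC2 hQb0
  have p3 : 0 ≤ C2 * K := mul_nonneg hC2 hK0
  have p4 : 0 ≤ C3 * Qa := mul_nonneg hC3 hQa0
  have p5 : 0 ≤ C3 * Qb := mul_nonneg hC3 hQb0
  have p6 : 0 ≤ C3 * K := mul_nonneg hC3 hK0
  have eC : (16 * C2 + 16 * C3 + 1) * (Qa + Qb + K + 1) =
      16 * (C2 * Qa) + 16 * (C2 * Qb) + 16 * (C2 * K) + 16 * C2 + 16 * (C3 * Qa) + 16 * (C3 * Qb) +
        16 * (C3 * K) + 16 * C3 + Qa + Qb + K + 1 := by ring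
  have eBa : Ba = 2 * (C2 * Qa) + 8 * (C2 * K) + C2 := by rw [hBa]; ring
  have eBb : Bb = 2 * (C2 * Qb) + 8 * (C2 * K) + C2 := by rw [hBb]; ring
  have eWa : C3 * (Qa + 4 * K) = C3 * Qa + 4 * (C3 * K) := by ring
  have eWb : C3 * (Qb + 4 * K) = C3 * Qb + 4 * (C3 * K) := by ring
  have z1 : (0 : ℝ) ≤ (NT F n a b : ℝ) := Nat.cast_nonneg _
  have z2 : (0 : ℝ) ≤ (NT F (n + k) a b : ℝ) := Nat.cast_nonneg _
  rw [eC]
  rcases le_or_gt V2 V1 with h21 | h12
  · -- a short interval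
    have hb : b ≤ a + 2 := by linarith
    have w1 := wa n hn b hb
    have w2 := wa (n + k) le_rfl b hb
    rw [eWa] at w1 w2
    rw [abs_le]
    constructor <;> linarith
  · have g1 := hv1 n (Or.inl rfl)
    have g1' := hv1 (n + k) (Or.inr rfl)
    have g2 := hv2 n (Or.inl rfl)
    have g2' := hv2 (n + k) (Or.inr rfl)
    have r0 := (residue (fam hF hA) n h12 (ne_of_good hF hA g1.1) (ne_of_good hF hA g2.1)).2
    have r1 := (residue (fam hF hA) (n + k) h12 (ne_of_good hF hA g1'.1) (ne_of_good hF hA g2'.1)).2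
    have r0' : (∫ x in (0 : ℝ)..1, qq F n (ph V1 x)).im - (∫ x in (0 : ℝ)..1, qq F n (ph V2 x)).im +
      (∫ y in V1..V2, qq F n (pv 1 y)).re = Real.pi * (NT F n V1 V2 : ℕ) := r0
    have r1' : (∫ x in (0 : ℝ)..1, qq F (n + k) (ph V1 x)).im - (∫ x in (0 : ℝ)..1, qq F (n + k) (ph V2 x)).im +
      (∫ y in V1..V2, qq F (n + k) (pv 1 y)).re = Real.pi * (NT F (n + k) V1 V2 : ℕ) := r1
    have v := ver hF hA V1 V2 n k
    have a1 := hor_le hF hA g1.1 (g1.2.trans ba)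
    have a1' := hor_le hF hA g1'.1 (g1'.2.trans ba)
    have a2 := hor_le hF hA g2.1 (g2.2.trans bb)
    have a2' := hor_le hF hA g2'.1 (g2'.2.trans bb)
    have hpi := Real.pi_gt_three
    obtain ⟨v1, v2⟩ := abs_le.1 v
    obtain ⟨a11, a12⟩ := abs_le.1 a1
    obtain ⟨a11', a12'⟩ := abs_le.1 a1'
    obtain ⟨a21, a22⟩ := abs_le.1 a2
    obtain ⟨a21', a22'⟩ := abs_le.1 a2'
    have hBa0 : 0 ≤ Ba := by rw [eBa]; positivity
    have hBb0 : 0 ≤ Bb := by rw [eBb]; positivity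
    have hkpi : (k : ℝ) * Real.pi ≤ K * Real.pi := mul_le_mul_of_nonneg_right hk (by linarith)
    have m1 : Real.pi * ((NT F (n + k) V1 V2 : ℝ) - NT F n V1 V2) ≤ Real.pi * (Ba + Bb + K) := by
      have e : Real.pi * (Ba + Bb + K) = Real.pi * Ba + Real.pi * Bb + K * Real.pi := by ring
      have q1 : 2 * Ba ≤ Real.pi * Ba := mul_le_mul_of_nonneg_right (by linarith) hBa0
      have q2 : 2 * Bb ≤ Real.pi * Bb := mul_le_mul_of_nonneg_right (by linarith) hBb0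
      rw [mul_sub, e]
      linarith
    have m2 : Real.pi * (-(Ba + Bb + K)) ≤ Real.pi * ((NT F (n + k) V1 V2 : ℝ) - NT F n V1 V2) := by
      have e : Real.pi * (-(Ba + Bb + K)) = -(Real.pi * Ba + Real.pi * Bb + K * Real.pi) := by ring
      have q1 : 2 * Ba ≤ Real.pi * Ba := mul_le_mul_of_nonneg_right (by linarith) hBa0
      have q2 : 2 * Bb ≤ Real.pi * Bb := mul_le_mul_of_nonneg_right (by linarith) hBb0
      rw [mul_sub, e]
      linarith
    have m1' := le_of_mul_le_mul_left m1 (by linarith)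
    have m2' := le_of_mul_le_mul_left m2 (by linarith)
    have s0 := NT_add hF hA h2 n hV1 h12.le
    have s0b := NT_add hF hA h2 n hab hV2
    have s1 := NT_add hF hA h2 (n + k) hV1 h12.le
    have s1b := NT_add hF hA h2 (n + k) hab hV2
    have s0r : (NT F n a V2 : ℝ) = NT F n a V1 + NT F n V1 V2 := by exact_mod_cast s0
    have s0br : (NT F n a V2 : ℝ) = NT F n a b + NT F n b V2 := by exact_mod_cast s0b
    have s1r : (NT F (n + k) a V2 : ℝ) = NT F (n + k) a V1 + NT F (n + k) V1 V2 := by exact_mod_cast s1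
    have s1br : (NT F (n + k) a V2 : ℝ) = NT F (n + k) a b + NT F (n + k) b V2 := by exact_mod_cast s1b
    have u1 := wa n hn V1 (by linarith)
    have u2 := wa (n + k) le_rfl V1 (by linarith)
    have u3 := wb n hn V2 (by linarith)
    have u4 := wb (n + k) le_rfl V2 (by linarith)
    have y1 : (0 : ℝ) ≤ (NT F n a V1 : ℝ) := Nat.cast_nonneg _
    have y2 : (0 : ℝ) ≤ (NT F (n + k) a V1 : ℝ) := Nat.cast_nonneg _
    have y3 : (0 : ℝ) ≤ (NT F n b V2 : ℝ) := Nat.cast_nonneg _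
    have y4 : (0 : ℝ) ≤ (NT F (n + k) b V2 : ℝ) := Nat.cast_nonneg _
    rw [eWa] at u1 u2
    rw [eWb] at u3 u4
    rw [eBa, eBb] at m1' m2'
    rw [abs_le]
    constructor <;> linarith

end

end Pool.Agent.Zk69.G
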