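import Pool.Agent.Zk4.G.Str
import Pool.Agent.Zk69.G.A4

/-!
# The sign of `f_(n+1)/f_n` at a height without zeros off the line nearby (generic version)
-/

set_option autoImplicit false

namespace Pool.Agent.Zk69.G.XF

open Complex Filter Topology Set
open Pool.Agent.Zk4.G
open Pool.Agent.H24R2.DZ.CirAux (signM open_const)

/-- the sign of `q_n` at the points of a free height -/
theorem t_XF (F : ℂ → ℂ) [hF : FE F] (n : ℕ) (T : ℝ)
    (h : ∀ s : ℂ, iteratedDeriv n F s = 0 → s.re ≠ 0 → |s.re| < |s.im - T|) :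
    ∀ x : ℝ, 0 < x → 0 < (qq F n (⟨x, T⟩ : ℂ)).re := by
  intro x hx0
  set z : ℂ := ⟨x, T⟩ with hz
  have hzre : z.re = x := rfl
  have hzim : z.im = T := rfl
  have hne : iteratedDeriv n F z ≠ 0 := by
    intro h0
    have := h z h0 (by rw [hzre]; exact hx0.ne')
    rw [hzim, sub_self, abs_zero] at this
    exact absurd (abs_nonneg z.re) (not_le.2 this)
  obtain ⟨Q, hQ1, hQ2⟩ := approxG F n
  have hs := signM (iterD F n) ((-1) ^ n) (by simp) (Pool.Agent.Zk69.G.iter_symm hF n) hQ1 hQ2 z hne (by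
    intro s _ hs2 hs3
    rw [hzre, hzim] at hs2
    have hsre : s.re ≠ 0 := by
      intro h
      rw [h] at hs2
      nlinarith [sq_nonneg (T - s.im), pow_pos hx0 2]
    have h4 := h s hs3 hsre
    have h5 : |s.re| ^ 2 < |s.im - T| ^ 2 := by gcongr
    rw [sq_abs, sq_abs] at h5
    nlinarith [pow_pos hx0 2])
  have han : AnalyticAt ℂ (qq F n) z := ((iterD F (n + 1)).analyticAt z).div ((iterD F n).analyticAt z) hne
  have hev : ∀ᶠ w in 𝓝 z, 0 ≤ (qq F n w).re := by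
    have h1 : ∀ᶠ w : ℂ in 𝓝 z, 0 < w.re :=
      (isOpen_lt continuous_const Complex.continuous_re).mem_nhds (show 0 < z.re from hx0)
    filter_upwards [h1, hs] with w hw hw2
    rw [← iteratedDeriv_succ] at hw2
    exact nonneg_of_mul_nonneg_right hw2 hw
  refine lt_of_le_of_ne hev.self_of_nhds fun h0 => ?_
  have hc := open_const han h0.symm (s := 1) one_ne_zero (by
    filter_upwards [hev] with w hw
    rw [one_mul]
    exact hw)
  obtain ⟨z1, hz1⟩ := hF.ne n (qq F n z)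
  apply hz1
  have h1 : AnalyticOnNhd ℂ (iteratedDeriv (n + 1) F) univ := fun x _ => (iterD F (n + 1)).analyticAt x
  have h2 : AnalyticOnNhd ℂ (fun w => qq F n z * iteratedDeriv n F w) univ :=
    fun x _ => ((iterD F n).const_mul _).analyticAt x
  refine h1.eqOn_of_preconnected_of_eventuallyEq h2 isPreconnected_univ (mem_univ z) ?_ (mem_univ z1)
  have h3 : ∀ᶠ w : ℂ in 𝓝 z, iteratedDeriv n F w ≠ 0 := (iterD F n).continuous.continuousAt.eventually_ne hne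
  filter_upwards [hc, h3] with w hw1 hw2
  rw [← hw1]
  unfold qq
  rw [div_mul_cancel₀ _ hw2]

/-- the same with the distance `1/2` -/
theorem t_XF' (F : ℂ → ℂ) [FE F] (n : ℕ) (T : ℝ)
    (h : ∀ s : ℂ, iteratedDeriv n F s = 0 → s.re ≠ 0 → 1 / 2 < |s.im - T|) :
    ∀ x : ℝ, 0 < x → 0 < (qq F n (⟨x, T⟩ : ℂ)).re :=
  t_XF F n T fun s hs hre => (Pool.Agent.Zk4.G.strip F n s hs).trans_lt (h s hs hre)

/-- free heights in the sense of `Zk69/GF/Step.lean` -/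
theorem fr (F : ℂ → ℂ) [FE F] (n : ℕ) (T : ℝ)
    (h : ∀ s : ℂ, iteratedDeriv n F s = 0 → s.re ≠ 0 → |s.re| < |s.im - T|)
    (h0 : iteratedDeriv n F (⟨0, T⟩ : ℂ) ≠ 0) (h1 : iteratedDeriv (n + 1) F (⟨0, T⟩ : ℂ) ≠ 0) :
    Pool.Agent.Zk69.GF.Fr (fun n => iteratedDeriv n F) 1 n T :=
  ⟨fun x hx _ => t_XF F n T h x hx, h0, h1⟩

/-- the winding half of the exact step, in the notation of `Zk4/G/U.lean` -/
theorem wind {F : ℂ → ℂ} (hF : FE F) (hA : S_A1 F) {n : ℕ} {T1 T2 : ℝ} (h12 : T1 < T2)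
    (h1 : ∀ x : ℝ, 0 < x → x ≤ 1 → 0 < (qq F n (⟨x, T1⟩ : ℂ)).re) (h10 : iteratedDeriv n F (⟨0, T1⟩ : ℂ) ≠ 0)
    (h11 : iteratedDeriv (n + 1) F (⟨0, T1⟩ : ℂ) ≠ 0)
    (h2 : ∀ x : ℝ, 0 < x → x ≤ 1 → 0 < (qq F n (⟨x, T2⟩ : ℂ)).re) (h20 : iteratedDeriv n F (⟨0, T2⟩ : ℂ) ≠ 0)
    (h21 : iteratedDeriv (n + 1) F (⟨0, T2⟩ : ℂ) ≠ 0) :
    2 * ((NT F (n + 1) T1 T2 : ℤ) - NT F n T1 T2) =
      (if 0 < (qq F n (⟨0, T2⟩ : ℂ)).im then 1 else -1) - (if 0 < (qq F n (⟨0, T1⟩ : ℂ)).im then 1 else -1) :=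
  Pool.Agent.Zk69.GF.step_sign (Pool.Agent.Zk69.G.fam hF hA) h12 ⟨h1, h10, h11⟩ ⟨h2, h20, h21⟩

/-- the same with the signs of `g_n g_(n+1)` -/
theorem wind_gn {F : ℂ → ℂ} (hF : FE F) (hA : S_A1 F) {n : ℕ} {T1 T2 : ℝ} (h12 : T1 < T2)
    (h1 : ∀ x : ℝ, 0 < x → x ≤ 1 → 0 < (qq F n (⟨x, T1⟩ : ℂ)).re) (h10 : gn F n T1 * gn F (n + 1) T1 ≠ 0)
    (h2 : ∀ x : ℝ, 0 < x → x ≤ 1 → 0 < (qq F n (⟨x, T2⟩ : ℂ)).re) (h20 : gn F n T2 * gn F (n + 1) T2 ≠ 0) :
    (NT F (n + 1) T1 T2 : ℤ) - NT F n T1 T2 =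
      (if 0 < gn F n T1 * gn F (n + 1) T1 then 1 else 0) - (if 0 < gn F n T2 * gn F (n + 1) T2 then 1 else 0) := by
  have hI : ∀ T : ℝ, (⟨0, T⟩ : ℂ) = I * T := fun T => by apply Complex.ext <;> simp
  -- the values on the line
  have hreal : ∀ (m : ℕ) (T : ℝ), ((gn F m T : ℝ) : ℂ) = I ^ m * iteratedDeriv m F (I * T) := by
    intro m T
    have h3 := Pool.Agent.Zk69.G.iter_symm hF m (I * T)
    have e1 : -(starRingEnd ℂ) (I * (T : ℂ)) = I * T := by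
      rw [map_mul, conj_I, conj_ofReal]
      ring
    rw [e1] at h3
    have h4 : (starRingEnd ℂ) (I ^ m * iteratedDeriv m F (I * T)) = I ^ m * iteratedDeriv m F (I * T) := by
      rw [map_mul, map_pow, conj_I, neg_pow]
      linear_combination (-(I ^ m)) * h3
    unfold gn
    exact Complex.conj_eq_iff_re.1 h4
  have him : ∀ T : ℝ, gn F n T * gn F (n + 1) T ≠ 0 →
      iteratedDeriv n F (⟨0, T⟩ : ℂ) ≠ 0 ∧ iteratedDeriv (n + 1) F (⟨0, T⟩ : ℂ) ≠ 0 ∧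
      (0 < (qq F n (⟨0, T⟩ : ℂ)).im ↔ ¬ 0 < gn F n T * gn F (n + 1) T) := by
    intro T hT
    have g0 : gn F n T ≠ 0 := left_ne_zero_of_mul hT
    have g1 : gn F (n + 1) T ≠ 0 := right_ne_zero_of_mul hT
    have r0 := hreal n T
    have r1 := hreal (n + 1) T
    have f0 : iteratedDeriv n F (I * T) ≠ 0 := by
      intro h
      rw [h, mul_zero] at r0
      exact g0 (by exact_mod_cast r0)
    have f1 : iteratedDeriv (n + 1) F (I * T) ≠ 0 := by
      intro h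
      rw [h, mul_zero] at r1
      exact g1 (by exact_mod_cast r1)
    refine ⟨by rw [hI]; exact f0, by rw [hI]; exact f1, ?_⟩
    have hq : qq F n (⟨0, T⟩ : ℂ) = ((-(gn F (n + 1) T / gn F n T) : ℝ) : ℂ) * I := by
      rw [hI]
      unfold qq
      push_cast
      rw [r0, r1, pow_succ]
      have hIn : (I : ℂ) ^ n ≠ 0 := pow_ne_zero _ I_ne_zero
      field_simp
      linear_combination I_sq
    rw [hq, mul_I_im, ofReal_re, neg_pos, not_lt]
    rw [div_neg_iff, ← not_lt]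
    constructor
    · rintro (⟨p1, p2⟩ | ⟨p1, p2⟩) h
      · exact absurd h (not_lt.2 (mul_nonpos_of_nonpos_of_nonneg p2.le p1.le))
      · exact absurd h (not_lt.2 (mul_nonpos_of_nonneg_of_nonpos p2.le p1.le))
    · intro h
      rcases lt_or_gt_of_ne g0 with p1 | p1 <;> rcases lt_or_gt_of_ne g1 with p2 | p2
      · exact absurd (mul_pos_of_neg_of_neg p1 p2) h
      · exact Or.inl ⟨p2, p1⟩
      · exact Or.inr ⟨p2, p1⟩
      · exact absurd (mul_pos p1 p2) h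
  obtain ⟨a0, a1, a2⟩ := him T1 h10
  obtain ⟨b0, b1, b2⟩ := him T2 h20
  have h5 := wind hF hA h12 h1 a0 a1 h2 b0 b1
  by_cases p1 : 0 < gn F n T1 * gn F (n + 1) T1 <;> by_cases p2 : 0 < gn F n T2 * gn F (n + 1) T2
  · rw [if_neg (fun h => b2.1 h p2), if_neg (fun h => a2.1 h p1)] at h5
    rw [if_pos p1, if_pos p2]
    linarith
  · rw [if_pos (b2.2 p2), if_neg (fun h => a2.1 h p1)] at h5
    rw [if_pos p1, if_neg p2]
    linarith
  · rw [if_neg (fun h => b2.1 h p2), if_pos (a2.2 p1)] at h5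
    rw [if_neg p1, if_pos p2]
    linarith
  · rw [if_pos (b2.2 p2), if_pos (a2.2 p1)] at h5
    rw [if_neg p1, if_neg p2]
    linarith

end Pool.Agent.Zk69.G.XF
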