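import Pool.Agent.Zk69.GH.Vs
import Pool.Agent.Zk6.G.Rh
import Pool.Agent.Zk6.G.Fi

set_option autoImplicit false

/-!
# The statements on `F(z) = u Λ(h + 3z)` in terms of `Λ`
-/

namespace Pool.Agent.Zk69.G.Fin6

open Complex Filter Topology
open Pool.Agent.Zk4.G Pool.Agent.Zk4.G.Sc Pool.Agent.Zk6.G Pool.Agent.Zk69.GH

/-- `t` is a critical point of order `j` -/
def Cri (x : ℝ) (Λ : ℂ → ℂ) (j : ℕ) (t : ℝ) : Prop :=
  iteratedDeriv j Λ (x + I * t) ≠ 0 ∧ iteratedDeriv (j + 1) Λ (x + I * t) = 0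

/-- the seven statements -/
structure Fields (C x : ℝ) (ℓ : ℝ → ℝ) (Λ : ℂ → ℂ) : Prop where
  finite : ∀ (n : ℕ) (a b : ℝ), (off x Λ n a b).Finite ∧ (critical x Λ n a b).Finite ∧
    {j : ℕ | V x Λ j a b ≠ 0}.Finite
  count : ∀ (n : ℕ) (a b : ℝ), a ≤ b → |(M x Λ n a b : ℝ) - 2 * W x Λ n a b| ≤ C * (ℓ a + ℓ b)
  exact : ∀ (n : ℕ) (a b : ℝ), a < b →
    (∀ s : ℂ, iteratedDeriv n Λ s = 0 → s.re ≠ x → C * ℓ a * (s.re - x) ^ 2 < (s.im - a) ^ 2) →
    (∀ s : ℂ, iteratedDeriv n Λ s = 0 → s.re ≠ x → C * ℓ b * (s.re - x) ^ 2 < (s.im - b) ^ 2) →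
    M x Λ n a b = 2 * W x Λ n a b
  near : ∀ (n k : ℕ) (t : ℝ), Cri x Λ (n + k) t → weight x Λ (n + k) t ≠ 0 →
    ∃ s : ℂ, iteratedDeriv n Λ s = 0 ∧ s.re ≠ x ∧ |s.im - t| ≤ Real.sqrt (k + 1) * |s.re - x|
  order : ∀ (j : ℕ) (t : ℝ), Cri x Λ j t → weight x Λ j t ≠ 0 → (j : ℝ) < C * ℓ t
  grh : (∀ s : ℂ, Λ s = 0 → s.re = x) ↔ ∀ (j : ℕ) (t : ℝ), Cri x Λ j t → weight x Λ j t = 0
  finitely : ∀ n : ℕ, {s : ℂ | iteratedDeriv n Λ s = 0 ∧ s.re ≠ x}.Finite ↔
    {p : ℕ × ℝ | n ≤ p.1 ∧ Cri x Λ p.1 p.2 ∧ weight x Λ p.1 p.2 ≠ 0}.Finite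

variable {K : ℝ} {F Λ : ℂ → ℂ} {c : ℝ → ℝ} {h : ℝ} {u : ℂ}

theorem off_fin (hF : FE F) (H : Scl h Λ F u) (n : ℕ) (a b : ℝ) : (off h Λ n a b).Finite := by
  have e : off h Λ n a b = off h Λ n (3 * (a / 3)) (3 * (b / 3)) := by
    congr 1 <;> ring
  rw [e, H.off]
  exact ((zfin hF n _ _).subset fun s hs => hs.1).image _

theorem crit_fin (hF : FE F) (H : Scl h Λ F u) (n : ℕ) (a b : ℝ) : (critical h Λ n a b).Finite := by
  rw [critical_eq hF H]
  refine Set.Finite.image _ ?_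
  refine Set.Finite.of_finite_image (f := fun x : ℝ => I * (x : ℂ)) ((zfin hF (n + 1) (a / 3) (b / 3)).subset ?_) ?_
  · rintro w ⟨x, ⟨h1, h2, h3, h4⟩, rfl⟩
    exact ⟨(Pool.Agent.Zk6.G.gn_zero hF (n + 1) x).1 h4, by simpa using h1, by simpa using h2⟩
  · intro x _ y _ hxy
    have h1 : I * (x : ℂ) = I * (y : ℂ) := hxy
    have h2 := congrArg Complex.im h1
    simpa using h2

theorem cri_iff (hF : FE F) (H : Scl h Λ F u) (j : ℕ) (t : ℝ) :
    Cri h Λ j t ↔ gn F j (t / 3) ≠ 0 ∧ gn F (j + 1) (t / 3) = 0 := by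
  unfold Cri
  rw [Ne, ← gn_iff hF H j t, ← gn_iff hF H (j + 1) t]

theorem transfer (H : Ctl K F c) (hK : 0 < K) (S : Scl h Λ F u) (hx : S_Ex F) (hs : Slow c) {ℓ : ℝ → ℝ}
    (hl : ∀ y, c (y / 3) ≤ 2 * ℓ y) {C : ℝ} (hC1 : 2 * CF K ≤ C) (hC2 : 4 * K + 2 ≤ C) : Fields C h ℓ Λ := by
  have hF := H.fe
  have hl0 : ∀ y, 0 < ℓ y := fun y => by
    have := H.one (y / 3)
    have := hl y
    linarith
  have hcl : ∀ y, (2 * K + 1) * c (y / 3) ≤ C * ℓ y := fun y => by
    have h1 := hl y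
    have h2 : (2 * K + 1) * c (y / 3) ≤ (2 * K + 1) * (2 * ℓ y) := mul_le_mul_of_nonneg_left h1 (by linarith)
    have h3 : (4 * K + 2) * ℓ y ≤ C * ℓ y := mul_le_mul_of_nonneg_right hC2 (hl0 y).le
    linarith
  have hfin := fun (a b : ℝ) (hab : a ≤ b) => fin K hK F c H (a / 3) (b / 3) (by linarith)
  refine ⟨fun n a b => ⟨off_fin hF S n a b, crit_fin hF S n a b, ?_⟩, ?_, ?_, ?_, ?_, ?_, ?_⟩
  · -- finitely many orders
    rcases le_or_gt a b with hab | hab
    · obtain ⟨h1, _⟩ := hfin a b hab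
      refine (Set.finite_lt_nat ⌈CF K * (c (a / 3) + c (b / 3))⌉₊).subset fun j hj => ?_
      change j < _
      by_contra hcon
      push Not at hcon
      apply hj
      rw [V_eq hF S]
      exact (h1 j ((Nat.le_ceil _).trans (by exact_mod_cast hcon))).1
    · refine Set.Finite.subset Set.finite_empty fun j hj => ?_
      apply hj
      have e : critical h Λ j a b = ∅ := by
        ext t
        simp only [Set.mem_empty_iff_false, iff_false]
        rintro ⟨h1, h2, _⟩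
        linarith
      unfold V
      rw [e]
      simp
  · intro n a b hab
    obtain ⟨_, h2⟩ := hfin a b hab
    have h3 := h2 n
    rw [S.M', W_eq hF S]
    refine h3.trans ?_
    have h4 := hl a
    have h5 := hl b
    have h6 : 0 ≤ CF K := by
      have h7 := (abs_nonneg _).trans h3
      have h8 := H.one (a / 3)
      have h9 := H.one (b / 3)
      by_contra hcon
      push Not at hcon
      nlinarith
    calc CF K * (c (a / 3) + c (b / 3)) ≤ CF K * (2 * ℓ a + 2 * ℓ b) :=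
          mul_le_mul_of_nonneg_left (by linarith) h6
      _ = 2 * CF K * (ℓ a + ℓ b) := by ring
      _ ≤ C * (ℓ a + ℓ b) := mul_le_mul_of_nonneg_right hC1 (by linarith [hl0 a, hl0 b])
  · intro n a b hab ha hb
    have key : ∀ T : ℝ, (∀ s : ℂ, iteratedDeriv n Λ s = 0 → s.re ≠ h → C * ℓ T * (s.re - h) ^ 2 < (s.im - T) ^ 2) →
        Fr ((2 * K + 1) * c (T / 3)) F n (T / 3) := by
      intro T hT s h1 h2
      have h3 := hT (h + 3 * s) ((S.zero n s).1 h1) (by
        have : ((h : ℂ) + 3 * s).re = h + 3 * s.re := aff_re h s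
        rw [this]
        intro h0
        apply h2
        linarith)
      have h4 : ((h : ℂ) + 3 * s).re = h + 3 * s.re := aff_re h s
      have h5 : ((h : ℂ) + 3 * s).im = 3 * s.im := aff_im h s
      rw [h4, h5] at h3
      have h6 := mul_le_mul_of_nonneg_right (hcl T) (sq_nonneg s.re)
      nlinarith
    rw [S.M', W_eq hF S]
    exact H.exact hK hx (by linarith) (key a ha) (key b hb)
  · intro n k t ht hw
    obtain ⟨h0, h1⟩ := (cri_iff hF S (n + k) t).1 ht
    rw [← vw_eq hF S] at hw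
    obtain ⟨s, h2, h3, h4⟩ := t_A7 hF n k (t / 3) h0 h1 hw
    have h5 : ((h : ℂ) + 3 * s).re = h + 3 * s.re := aff_re h s
    have h6 : ((h : ℂ) + 3 * s).im = 3 * s.im := aff_im h s
    refine ⟨h + 3 * s, (S.zero n s).1 h2, ?_, ?_⟩
    · rw [h5]
      intro h0
      apply h3
      linarith
    · rw [h5, h6]
      have h7 : (3 * s.im - t) ^ 2 ≤ (Real.sqrt (k + 1) * |h + 3 * s.re - h|) ^ 2 := by
        rw [mul_pow, Real.sq_sqrt (by positivity), sq_abs]
        have : h + 3 * s.re - h = 3 * s.re := by ring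
        rw [this]
        nlinarith
      exact abs_le_of_sq_le_sq h7 (by positivity)
  · intro j t ht hw
    obtain ⟨h0, h1⟩ := (cri_iff hF S j t).1 ht
    rw [← vw_eq hF S] at hw
    by_contra hcon
    push Not at hcon
    apply hw
    refine H.vw_zero hK ?_ h0 h1
    have h2 := hcl t
    have h3 := H.one (t / 3)
    nlinarith
  · have h1 := rh_iff H hK hx hs
    have h2 : (∀ s : ℂ, Λ s = 0 → s.re = h) ↔ ∀ s : ℂ, F s = 0 → s.re = 0 := by
      constructor
      · intro h3 s h4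
        have h5 := (S.zero 0 s).1 (by rw [iteratedDeriv_zero]; exact h4)
        rw [iteratedDeriv_zero] at h5
        have h6 := h3 _ h5
        rw [show ((h : ℂ) + 3 * s).re = h + 3 * s.re from aff_re h s] at h6
        linarith
      · intro h3 w h4
        have e : (h : ℂ) + 3 * ((w - h) / 3) = w := by ring
        have h5 := (S.zero 0 ((w - h) / 3)).2 (by rw [iteratedDeriv_zero, e]; exact h4)
        rw [iteratedDeriv_zero] at h5
        have h6 := h3 _ h5
        have h7 : ((h : ℂ) + 3 * ((w - h) / 3)).re = h + 3 * ((w - h) / 3 : ℂ).re := aff_re h _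
        rw [e, h6] at h7
        linarith
    rw [h2, h1]
    constructor
    · intro h3 j t ht
      obtain ⟨h4, h5⟩ := (cri_iff hF S j t).1 ht
      rw [← vw_eq hF S]
      exact h3 j _ h4 h5
    · intro h3 j y h4 h5
      have e : y = 3 * y / 3 := by ring
      rw [e] at h4 h5 ⊢
      rw [vw_eq hF S]
      exact h3 j (3 * y) ((cri_iff hF S j (3 * y)).2 ⟨h4, h5⟩)
  · intro n
    have h1 := fin_iff H hK hx hs n
    have h2 : {s : ℂ | iteratedDeriv n Λ s = 0 ∧ s.re ≠ h} = aff h '' {s : ℂ | iteratedDeriv n F s = 0 ∧ s.re ≠ 0} := by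
      ext w
      constructor
      · rintro ⟨h3, h4⟩
        refine ⟨(aff h).symm w, ⟨?_, ?_⟩, (aff h).apply_symm_apply w⟩
        · rw [S.zero]
          have : (h : ℂ) + 3 * (aff h).symm w = w := (aff h).apply_symm_apply w
          rw [this]
          exact h3
        · have := aff_re h ((aff h).symm w)
          rw [(aff h).apply_symm_apply] at this
          intro h0
          apply h4
          rw [this, h0]
          ring
      · rintro ⟨z, ⟨h3, h4⟩, rfl⟩
        refine ⟨(S.zero n z).1 h3, ?_⟩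
        rw [aff_re]
        intro h0
        apply h4
        linarith
    have h3 : {p : ℕ × ℝ | n ≤ p.1 ∧ Cri h Λ p.1 p.2 ∧ weight h Λ p.1 p.2 ≠ 0} =
        (fun p : ℕ × ℝ => (p.1, 3 * p.2)) '' Crt F n := by
      ext ⟨j, t⟩
      constructor
      · rintro ⟨h4, h5, h6⟩
        obtain ⟨h7, h8⟩ := (cri_iff hF S j t).1 h5
        refine ⟨(j, t / 3), ⟨h4, h7, h8, ?_⟩, ?_⟩
        · change vw F j (t / 3) ≠ 0
          rw [vw_eq hF S]
          exact h6
        · change (j, 3 * (t / 3)) = (j, t)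
          rw [show 3 * (t / 3) = t by ring]
      · rintro ⟨⟨j', y⟩, ⟨h4, h5, h6, h7⟩, h8⟩
        have h9 : j' = j := congrArg Prod.fst h8
        have h10 : 3 * y = t := congrArg Prod.snd h8
        subst h9
        subst h10
        have e : y = 3 * y / 3 := by ring
        change gn F j' y ≠ 0 at h5
        change gn F (j' + 1) y = 0 at h6
        change vw F j' y ≠ 0 at h7
        rw [e] at h5 h6 h7
        rw [vw_eq hF S] at h7
        exact ⟨h4, (cri_iff hF S j' (3 * y)).2 ⟨h5, h6⟩, h7⟩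
    have hinj : Function.Injective (fun p : ℕ × ℝ => (p.1, 3 * p.2)) := by
      rintro ⟨j, y⟩ ⟨j', y'⟩ hp
      have h4 : j = j' := congrArg Prod.fst hp
      have h5 : 3 * y = 3 * y' := congrArg Prod.snd hp
      have h6 : y = y' := by linarith
      rw [h4, h6]
    rw [h2, h3, Set.finite_image_iff (aff h).injective.injOn, Set.finite_image_iff hinj.injOn]
    exact h1

end Pool.Agent.Zk69.G.Fin6
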